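import Mathlib

/-!
# MP_836f85_an : condition number of interpolatory spline quadrature rules

Degree `p = 2`, knots `-1,-1,-1,1,1,1`, density `(1 + x) ^ 2 + 1 / 10`, points `-1, 0, 1`:
the equioscillating spline is `2 x ^ 2 - 1`, of norm `1`, but one weight is negative.
-/

set_option autoImplicit false

open MeasureTheory Set

namespace Pool.Agent.Results.MP_836f85_an.QuadraticBernstein

/-- The B-splines of degree `d` for the nondecreasing knots `ξ 0 ≤ ... ≤ ξ L` (Cox–de Boor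
recursion, with the convention `a / 0 = 0`; the functions of degree `0` are the indicators of the
half-open knot intervals, the last nonempty one being closed at its right end `ξ L`). -/
noncomputable def bs (ξ : ℕ → ℝ) (L : ℕ) : ℕ → ℕ → ℝ → ℝ
  | 0, i, x => by
      classical
      exact if (ξ i ≤ x ∧ x < ξ (i + 1)) ∨ (ξ i < x ∧ x = ξ (i + 1) ∧ x = ξ L) then 1 else 0
  | d + 1, i, x =>
      (x - ξ i) / (ξ (i + d + 1) - ξ i) * bs ξ L d i x +
        (ξ (i + d + 2) - x) / (ξ (i + d + 2) - ξ (i + 1)) * bs ξ L d (i + 1) x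

/-- The spline with coefficients `a` (for `n` B-splines of degree `p`, knots
`ξ 0, ..., ξ (n + p)`). -/
noncomputable def spl (ξ : ℕ → ℝ) (p n : ℕ) (a : Fin n → ℝ) (x : ℝ) : ℝ :=
  ∑ i : Fin n, a i * bs ξ (n + p) p i x

/-- The data of the problem: degree `p ≥ 1`, nondecreasing knots, a density `ρ`, positive and
integrable on `Ω = [ξ p, ξ n]`, unisolvent points `x 0 < ... < x (n-1)` in `Ω`, the
interpolatory quadrature weights `w`, and the equioscillating spline with coefficients `c`. -/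
structure Data (p n : ℕ) (ξ : ℕ → ℝ) (ρ : ℝ → ℝ) (x w c : Fin n → ℝ) : Prop where
  p_pos : 1 ≤ p
  knots : ∀ i < n + p, ξ i ≤ ξ (i + 1)
  nondeg : ξ p < ξ n
  integrable : IntegrableOn ρ (Icc (ξ p) (ξ n))
  pos : ∀ t ∈ Icc (ξ p) (ξ n), 0 < ρ t
  points : StrictMono x
  mem : ∀ i, x i ∈ Icc (ξ p) (ξ n)
  unisolvent : ∀ i : Fin n, 0 < bs ξ (n + p) p i (x i)
  quadrature : ∀ a : Fin n → ℝ,
    ∑ k, w k * spl ξ p n a (x k) = ∫ t in Icc (ξ p) (ξ n), ρ t * spl ξ p n a t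
  equi : ∀ i : Fin n, spl ξ p n c (x i) = (-1) ^ (i : ℕ)

/-- the sup norm on `Ω` of the equioscillating spline -/
noncomputable def supNorm (ξ : ℕ → ℝ) (p n : ℕ) (c : Fin n → ℝ) : ℝ :=
  sSup ((fun t => |spl ξ p n c t|) '' Icc (ξ p) (ξ n))

/-- the knots -/
noncomputable def ξ0 : ℕ → ℝ := fun i => if i < 3 then -1 else 1

/-- the density -/
noncomputable def ρ0 : ℝ → ℝ := fun t => (1 + t) ^ 2 + 1 / 10

lemma b0 {x : ℝ} (hx : x ∈ Icc (-1 : ℝ) 1) (i : ℕ) :
    bs ξ0 5 0 i x = if i = 2 then 1 else 0 := by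
  obtain ⟨h1, h2⟩ := hx
  rcases lt_trichotomy i 2 with hi | hi | hi
  · have e1 : ξ0 i = -1 := by simp [ξ0]; omega
    have e2 : ξ0 (i + 1) = -1 := by simp [ξ0]; omega
    have e3 : ξ0 5 = 1 := by simp [ξ0]
    simp only [bs, e1, e2, e3]
    rw [if_neg, if_neg (by omega)]
    rintro (⟨h3, h4⟩ | ⟨h3, h4, h5⟩) <;> linarith
  · subst hi
    have e1 : ξ0 2 = -1 := by simp [ξ0]
    have e2 : ξ0 (2 + 1) = 1 := by simp [ξ0]
    have e3 : ξ0 5 = 1 := by simp [ξ0]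
    simp only [bs, e1, e2, e3]
    rw [if_pos]
    · simp
    rcases lt_or_eq_of_le h2 with h3 | h3
    · left; exact ⟨h1, h3⟩
    · right; exact ⟨by linarith, h3, h3⟩
  · have e1 : ξ0 i = 1 := by simp [ξ0]; omega
    have e2 : ξ0 (i + 1) = 1 := by simp [ξ0]; omega
    simp only [bs, e1, e2]
    rw [if_neg, if_neg (by omega)]
    rintro (⟨h3, h4⟩ | ⟨h3, h4, h5⟩) <;> linarith

lemma bs_succ (ξ : ℕ → ℝ) (L d i : ℕ) (x : ℝ) : bs ξ L (d + 1) i x =
      (x - ξ i) / (ξ (i + d + 1) - ξ i) * bs ξ L d i x +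
        (ξ (i + d + 2) - x) / (ξ (i + d + 2) - ξ (i + 1)) * bs ξ L d (i + 1) x := rfl

lemma bA {x : ℝ} (hx : x ∈ Icc (-1 : ℝ) 1) : bs ξ0 5 2 0 x = ((1 - x) / 2) ^ 2 := by
  rw [bs_succ, bs_succ, bs_succ, b0 hx, b0 hx, b0 hx]
  simp [ξ0]
  ring

lemma bB {x : ℝ} (hx : x ∈ Icc (-1 : ℝ) 1) : bs ξ0 5 2 1 x = (1 - x) * (1 + x) / 2 := by
  rw [bs_succ, bs_succ, bs_succ, b0 hx, b0 hx, b0 hx]
  simp [ξ0]
  ring

lemma bC {x : ℝ} (hx : x ∈ Icc (-1 : ℝ) 1) : bs ξ0 5 2 2 x = ((1 + x) / 2) ^ 2 := by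
  rw [bs_succ, bs_succ, bs_succ, b0 hx, b0 hx, b0 hx]
  simp [ξ0]
  ring

lemma spl_eq (a : Fin 3 → ℝ) {x : ℝ} (hx : x ∈ Icc (-1 : ℝ) 1) :
    spl ξ0 2 3 a x = a 0 * ((1 - x) / 2) ^ 2 + a 1 * ((1 - x) * (1 + x) / 2) +
      a 2 * ((1 + x) / 2) ^ 2 := by
  rw [spl, Fin.sum_univ_three]
  simp only [Fin.val_zero, Fin.val_one, Fin.val_two]
  rw [bA hx, bB hx, bC hx]

/-- the points -/
noncomputable def x0 : Fin 3 → ℝ := ![-1, 0, 1]

/-- the weights -/
noncomputable def w0 : Fin 3 → ℝ := ![-1 / 10, 26 / 15, 37 / 30]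

/-- the coefficients of `2 x ^ 2 - 1` -/
noncomputable def c0 : Fin 3 → ℝ := ![1, -3, 1]

lemma omega_eq : Icc (ξ0 2) (ξ0 3) = Icc (-1 : ℝ) 1 := by simp [ξ0]

lemma splc {x : ℝ} (hx : x ∈ Icc (-1 : ℝ) 1) : spl ξ0 2 3 c0 x = 2 * x ^ 2 - 1 := by
  rw [spl_eq _ hx]
  simp [c0]
  ring

lemma int_poly (A B C : ℝ) :
    ∫ t in Icc (-1 : ℝ) 1, ρ0 t * (A * ((1 - t) / 2) ^ 2 + B * ((1 - t) * (1 + t) / 2) +
      C * ((1 + t) / 2) ^ 2) = A * (1 / 3) + B * (13 / 15) + C * (5 / 3) := by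
  rw [integral_Icc_eq_integral_Ioc, ← intervalIntegral.integral_of_le (by norm_num)]
  have hderiv : ∀ t ∈ uIcc (-1 : ℝ) 1, HasDerivAt
      (fun t : ℝ => A * (1 / 4) * (t + 1 / 10 * (t - t ^ 2 + t ^ 3 / 3) - 2 * t ^ 3 / 3 + t ^ 5 / 5)
        + B * (1 / 2) * (t + t ^ 2 - t ^ 4 / 2 - t ^ 5 / 5 + 1 / 10 * (t - t ^ 3 / 3))
        + C * (1 / 4) * ((1 + t) ^ 5 / 5 + 1 / 10 * ((1 + t) ^ 3 / 3)))
      (ρ0 t * (A * ((1 - t) / 2) ^ 2 + B * ((1 - t) * (1 + t) / 2) +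
        C * ((1 + t) / 2) ^ 2)) t := by
    intro t _
    have h1 := hasDerivAt_id t
    have h2 := hasDerivAt_pow 2 t
    have h3 := hasDerivAt_pow 3 t
    have h4 := hasDerivAt_pow 4 t
    have h5 := hasDerivAt_pow 5 t
    have h6 : HasDerivAt (fun t : ℝ => 1 + t) 1 t := by
      simpa using (hasDerivAt_id t).const_add 1
    have h7 := h6.pow 5
    have h8 := h6.pow 3
    have := ((((h1.add (((h1.sub h2).add (h3.div_const 3)).const_mul (1 / 10))).sub
      ((h3.const_mul 2).div_const 3)).add (h5.div_const 5)).const_mul (A * (1 / 4))).add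
      (((((h1.add h2).sub (h4.div_const 2)).sub (h5.div_const 5)).add
        ((h1.sub (h3.div_const 3)).const_mul (1 / 10))).const_mul (B * (1 / 2)))
    have := this.add (((h7.div_const 5).add ((h8.div_const 3).const_mul (1 / 10))).const_mul
      (C * (1 / 4)))
    refine this.congr_deriv ?_
    simp only [ρ0]
    push_cast
    ring
  rw [intervalIntegral.integral_eq_sub_of_hasDerivAt hderiv]
  · norm_num
    ring
  · apply Continuous.intervalIntegrable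
    unfold ρ0
    fun_prop

lemma int_one : ∫ t in Icc (-1 : ℝ) 1, ρ0 t = 43 / 15 := by
  have h := int_poly 1 1 1
  have e : ∀ t : ℝ, ρ0 t * (1 * ((1 - t) / 2) ^ 2 + 1 * ((1 - t) * (1 + t) / 2) +
      1 * ((1 + t) / 2) ^ 2) = ρ0 t := by
    intro t; ring
  simp_rw [e] at h
  rw [h]
  norm_num

lemma data : Data 2 3 ξ0 ρ0 x0 w0 c0 where
  p_pos := by norm_num
  knots := by
    intro i _
    simp only [ξ0]
    split_ifs <;> first | linarith | omega
  nondeg := by simp [ξ0]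
  integrable := by
    rw [omega_eq]
    apply Continuous.integrableOn_Icc
    unfold ρ0
    fun_prop
  pos := by
    intro t _
    simp only [ρ0]
    positivity
  points := by
    intro i j hij
    fin_cases i <;> fin_cases j <;> simp_all [x0]
  mem := by
    intro i
    rw [omega_eq]
    fin_cases i <;> simp [x0]
  unisolvent := by
    intro i
    fin_cases i
    · show 0 < bs ξ0 5 2 0 (x0 0)
      rw [bA (by simp [x0])]
      simp [x0]
    · show 0 < bs ξ0 5 2 1 (x0 1)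
      rw [bB (by simp [x0])]
      simp [x0]
    · show 0 < bs ξ0 5 2 2 (x0 2)
      rw [bC (by simp [x0])]
      simp [x0]
  quadrature := by
    intro a
    rw [omega_eq]
    have h1 : ∫ t in Icc (-1 : ℝ) 1, ρ0 t * spl ξ0 2 3 a t =
        ∫ t in Icc (-1 : ℝ) 1, ρ0 t * (a 0 * ((1 - t) / 2) ^ 2 +
          a 1 * ((1 - t) * (1 + t) / 2) + a 2 * ((1 + t) / 2) ^ 2) := by
      apply setIntegral_congr_fun measurableSet_Icc
      intro t ht
      simp only [spl_eq a ht]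
    rw [h1, int_poly, Fin.sum_univ_three]
    rw [spl_eq a (by simp [x0]), spl_eq a (by simp [x0]), spl_eq a (by simp [x0])]
    simp [x0, w0]
    ring
  equi := by
    intro i
    fin_cases i
    · show spl ξ0 2 3 c0 (x0 0) = _
      rw [splc (by simp [x0])]
      simp [x0]; norm_num
    · show spl ξ0 2 3 c0 (x0 1) = _
      rw [splc (by simp [x0])]
      simp [x0]
    · show spl ξ0 2 3 c0 (x0 2) = _
      rw [splc (by simp [x0])]
      simp [x0]; norm_num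

lemma sup_le : supNorm ξ0 2 3 c0 ≤ 1 := by
  rw [supNorm, omega_eq]
  apply csSup_le
  · exact ⟨_, ⟨0, by norm_num, rfl⟩⟩
  · rintro y ⟨t, ht, rfl⟩
    simp only [splc ht]
    rw [abs_le]
    obtain ⟨h1, h2⟩ := ht
    constructor <;> nlinarith

theorem result :
    ∃ (p n : ℕ) (ξ : ℕ → ℝ) (ρ : ℝ → ℝ) (x w c : Fin n → ℝ), Data p n ξ ρ x w c ∧
      supNorm ξ p n c * (∫ t in Icc (ξ p) (ξ n), ρ t) < ∑ k, |w k| := by
  refine ⟨2, 3, ξ0, ρ0, x0, w0, c0, data, ?_⟩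
  rw [omega_eq, int_one, Fin.sum_univ_three]
  have h1 : |w0 0| = 1 / 10 := by
    simp only [w0, Matrix.cons_val_zero]
    rw [abs_of_neg (by norm_num)]; norm_num
  have h2 : |w0 1| = 26 / 15 := by
    simp only [w0, Matrix.cons_val_one, Matrix.cons_val_zero]
    rw [abs_of_pos (by norm_num)]
  have h3 : |w0 2| = 37 / 30 := by
    simp only [w0, Matrix.cons_val]
    rw [abs_of_pos (by norm_num)]
  rw [h1, h2, h3]
  have := sup_le
  nlinarith

end Pool.Agent.Results.MP_836f85_an.QuadraticBernstein
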